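import Pool.Agent.Y80.KI.CharFin
import Pool.Agent.Y80.Shang.Exist

set_option autoImplicit false

/-! Shang's character formula for free alternative algebras fails for every `V` with `dim V ≥ 2`,
in infinitely many degrees, already in the multidegrees which are supported on two given
coordinates. There Artin's theorem gives the dimensions `choose (l + m) l` of `Alt(V)`. If almost
all coefficients of `a(V)` were these numbers, the generating function of the sums over total
degree `n` would be `1 / (1 - 2 t)` plus a polynomial, and the defining property of the pair would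
give a functional equation which is refuted by analytic continuation past the pole `t = 1/2`. -/

namespace Pool.Agent.Results.MP_9e3efc_al.InfinitelyManyFailures

open Pool.Agent.Y80.Shang

/-- Let `k` be any field and `dim V = d ≥ 2`. There is exactly one pair `(a(V), b(V))` with
Shang's defining property, and `[Alt(V)] ≠ a(V)`. More precisely, for any two coordinates `i ≠ j`
and every `n₀` there is a multidegree `l e_i + m e_j` with `l + m ≥ n₀` such that the coefficient
of `a(V)` is not the dimension of the component of `Alt(V)` of this multidegree. -/
theorem result (k : Type*) [Field k] (d : ℕ) (hd : 2 ≤ d) :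
    (∃! p : MvPowerSeries (Fin d) ℤ × MvPowerSeries (Fin d) ℤ, IsShangPair p.1 p.2) ∧
      ∀ a b : MvPowerSeries (Fin d) ℤ, IsShangPair a b → altChar k d ≠ a ∧
        ∀ i j : Fin d, i ≠ j → ∀ n₀ : ℕ, ∃ l m : ℕ, n₀ ≤ l + m ∧
          MvPowerSeries.coeff (Finsupp.single i l + Finsupp.single j m) a ≠
            Module.finrank k (altComponent k d (Finsupp.single i l + Finsupp.single j m)) := by
  refine ⟨existsUnique_pair d, fun a b h => ⟨?_, fun i j hij n₀ =>
    Pool.Agent.Y80.KI.shang_inf k i j hij a b h n₀⟩⟩
  rintro rfl
  obtain ⟨l, m, -, h2⟩ := Pool.Agent.Y80.KI.shang_inf k (⟨0, by omega⟩ : Fin d) ⟨1, by omega⟩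
    (by simp) _ b h 0
  exact h2 rfl

end Pool.Agent.Results.MP_9e3efc_al.InfinitelyManyFailures
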